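import Mathlib

set_option autoImplicit false

namespace Pool.Agent.Results.MP_c24244_an.Counter

open Finset
open scoped ENNReal

/-- The spherical Bishop-Phelps-Bollobas modulus `Φ^S(X, Y, ε)`. -/
noncomputable def Phi (X Y : Type) [NormedAddCommGroup X] [NormedSpace ℝ X]
    [NormedAddCommGroup Y] [NormedSpace ℝ Y] (ε : ℝ) : ℝ≥0∞ :=
  ⨆ (x : X) (T : X →L[ℝ] Y) (_ : ‖x‖ = 1 ∧ ‖T‖ = 1 ∧ 1 - ε < ‖T x‖),
    ⨅ (z : X) (F : X →L[ℝ] Y) (_ : ‖z‖ = 1 ∧ ‖F‖ = 1 ∧ ‖F z‖ = 1), max ‖x - z‖ₑ ‖T - F‖ₑ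

/-- `β(Y) ≤ ρ`. -/
def HasBeta (Y : Type) [NormedAddCommGroup Y] [NormedSpace ℝ Y] (ρ : ℝ) : Prop :=
  ∃ (Λ : Type) (y : Λ → Y) (φ : Λ → StrongDual ℝ Y),
    (∀ a, ‖y a‖ = 1 ∧ ‖φ a‖ = 1 ∧ φ a (y a) = 1) ∧ (∀ a b, a ≠ b → |φ a (y b)| ≤ ρ) ∧
      ∀ v : Y, IsLUB (Set.range fun a => |φ a v|) ‖v‖

abbrev X := PiLp 1 (fun _ : Fin 5 => ℝ)

def Y : Submodule ℝ (Fin 5 → ℝ) where
  carrier := {v | v 2 = 8 / 5 * v 1 - v 0 ∧ v 3 = 8 / 5 * (v 1 - v 0) ∧ v 4 = v 1 - 8 / 5 * v 0}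
  add_mem' := by
    rintro a b ⟨h1, h2, h3⟩ ⟨k1, k2, k3⟩
    simp only [Set.mem_setOf_eq, Pi.add_apply]
    refine ⟨by linarith, by linarith, by linarith⟩
  zero_mem' := by simp
  smul_mem' := by
    rintro c a ⟨h1, h2, h3⟩
    simp only [Set.mem_setOf_eq, Pi.smul_apply, smul_eq_mul]
    refine ⟨by rw [h1]; ring, by rw [h2]; ring, by rw [h3]; ring⟩

noncomputable def mk (a b : ℝ) : Y :=
  ⟨![a, b, 8 / 5 * b - a, 8 / 5 * (b - a), b - 8 / 5 * a], rfl, rfl, rfl⟩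

lemma co_le (w : Y) (j : Fin 5) : |w.1 j| ≤ ‖w‖ := norm_le_pi_norm w.1 j

lemma le_co (w : Y) (c : ℝ) (hc : 0 ≤ c) (h : ∀ j, |w.1 j| ≤ c) : ‖w‖ ≤ c :=
  (pi_norm_le_iff_of_nonneg hc).2 h

lemma ex_co (w : Y) : ∃ j, |w.1 j| = ‖w‖ := by
  obtain ⟨j, -, hj⟩ := exists_max_image univ (fun j => |w.1 j|) univ_nonempty
  exact ⟨j, le_antisymm (co_le w j) (le_co w _ (abs_nonneg _) fun i => hj i (mem_univ _))⟩

noncomputable def ph (j : Fin 5) : StrongDual ℝ Y :=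
  (ContinuousLinearMap.proj j : (Fin 5 → ℝ) →L[ℝ] ℝ) ∘L Y.subtypeL

lemma ph_apply (j : Fin 5) (w : Y) : ph j w = w.1 j := rfl

noncomputable def mid : Fin 5 → Y :=
  ![mk 1 (4 / 5), mk (4 / 5) 1, mk (3 / 10) (13 / 16), mk (-5 / 16) (5 / 16), mk (-13 / 16) (-3 / 10)]

lemma beta : HasBeta Y (5 / 6) := by
  have h1 : ∀ a, (mid a).1 a = 1 := by
    intro a; fin_cases a <;> simp [mid, mk] <;> norm_num
  have h2 : ∀ a b, a ≠ b → |(mid b).1 a| ≤ 5 / 6 := by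
    intro a b h
    fin_cases a <;> fin_cases b <;> simp [mid, mk] at h ⊢ <;> norm_num [abs_le]
  have h3 : ∀ a, ‖mid a‖ = 1 := by
    intro a
    refine le_antisymm (le_co _ _ zero_le_one fun j => ?_) ?_
    · by_cases c : j = a
      · rw [c, h1]; simp
      · linarith [h2 j a c]
    · simpa [h1] using co_le (mid a) a
  refine ⟨Fin 5, mid, ph, fun a => ⟨h3 a, le_antisymm ?_ ?_, h1 a⟩, h2, fun v => ⟨?_, ?_⟩⟩
  · exact ContinuousLinearMap.opNorm_le_bound _ zero_le_one fun w => by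
      rw [one_mul]; exact co_le w a
  · have := (ph a).le_opNorm (mid a)
    rw [h3, ph_apply, h1] at this
    simpa using this
  · rintro _ ⟨a, rfl⟩; exact co_le v a
  · intro c hc
    obtain ⟨j, hj⟩ := ex_co v
    rw [← hj]; exact hc ⟨j, rfl⟩

noncomputable def ys : Fin 5 → Y :=
  ![mk 1 1, mk 0 (3 / 5), mk (-1) (-3 / 5), mk (-3 / 5) (-1), mk (3 / 5) 0]

lemma ys_le (i : Fin 5) : ‖ys i‖ ≤ 1 := by
  refine le_co _ _ zero_le_one fun j => ?_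
  fin_cases i <;> fin_cases j <;> simp [ys, mk] <;> norm_num [abs_le]

def Np : Fin 5 → Finset (Fin 5) := ![{0, 4}, {0, 1}, {0, 1}, {1, 2}, {1, 2}]
def Nm : Fin 5 → Finset (Fin 5) := ![{2, 3}, {2, 3}, {3, 4}, {3, 4}, {4, 0}]

lemma far (w : Y) (i a : Fin 5) (h1 : ‖w‖ ≤ 1) (h2 : ‖ys i - w‖ < 9 / 8) :
    (w.1 a = 1 → i ∈ Np a) ∧ (w.1 a = -1 → i ∈ Nm a) := by
  obtain ⟨e2, e3, e4⟩ := w.2
  have b := fun j => abs_le.1 ((co_le w j).trans h1)
  have c : ∀ j, -(9 / 8) < (ys i).1 j - w.1 j ∧ (ys i).1 j - w.1 j < 9 / 8 :=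
    fun j => abs_lt.1 (lt_of_le_of_lt (co_le (ys i - w) j) h2)
  obtain ⟨b0, b0'⟩ := b 0
  obtain ⟨b1, b1'⟩ := b 1
  obtain ⟨b2, b2'⟩ := b 2
  obtain ⟨b3, b3'⟩ := b 3
  obtain ⟨b4, b4'⟩ := b 4
  obtain ⟨c0, c0'⟩ := c 0
  obtain ⟨c1, c1'⟩ := c 1
  obtain ⟨c2, c2'⟩ := c 2
  obtain ⟨c3, c3'⟩ := c 3
  obtain ⟨c4, c4'⟩ := c 4
  fin_cases i <;> simp [ys, mk] at c0 c0' c1 c1' c2 c2' c3 c3' c4 c4' <;> fin_cases a <;>
    constructor <;> intro h <;> first | decide | (exfalso; simp at h; linarith)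

noncomputable def T : X →L[ℝ] Y :=
  ∑ i, (PiLp.proj 1 (fun _ : Fin 5 => ℝ) i : X →L[ℝ] ℝ).smulRight (ys i)

noncomputable def e (i : Fin 5) : X := PiLp.single 1 i (1 : ℝ)

lemma e_norm (i : Fin 5) : ‖e i‖ = 1 := by simp [e]

lemma expand (z : X) : z = ∑ i, z i • e i := by
  ext j; simp [e, Pi.single_apply]

lemma T_e (i : Fin 5) : T (e i) = ys i := by
  simp [T, e, Pi.single_apply]

lemma nX (z : X) : ‖z‖ = ∑ i, |z i| := by
  rw [PiLp.norm_eq_of_L1]; rfl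

lemma T_norm : ‖T‖ = 1 := by
  refine le_antisymm (ContinuousLinearMap.opNorm_le_bound _ zero_le_one fun z => ?_) ?_
  · conv_lhs => rw [expand z, map_sum]
    rw [one_mul, nX]
    refine (norm_sum_le _ _).trans (sum_le_sum fun i _ => ?_)
    rw [map_smul, T_e, norm_smul, Real.norm_eq_abs]
    nlinarith [ys_le i, abs_nonneg (z i)]
  · have := T.le_opNorm (e 0)
    rw [T_e, e_norm, mul_one] at this
    refine le_trans ?_ this
    simpa [ys, mk] using co_le (ys 0) 0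

noncomputable def x0 : X := WithLp.toLp 1 ![1 / 4, 3 / 16, 3 / 16, 3 / 16, 3 / 16]

lemma key (z : X) (F : X →L[ℝ] Y) (hz : ‖z‖ = 1) (hF : ‖F‖ = 1) (hFz : ‖F z‖ = 1)
    (h : ‖T - F‖ < 9 / 8) : 9 / 8 ≤ ‖x0 - z‖ := by
  have n1 : ∀ i, ‖F (e i)‖ ≤ 1 := fun i => by
    simpa [hF, e_norm] using F.le_opNorm (e i)
  have n2 : ∀ i, ‖ys i - F (e i)‖ < 9 / 8 := fun i => by
    have := (T - F).le_opNorm (e i)
    rw [e_norm, mul_one, sub_apply, T_e] at this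
    linarith
  obtain ⟨a, ha⟩ := ex_co (F z)
  rw [hFz] at ha
  have ex : (F z).1 a = ∑ i, z i * (F (e i)).1 a := by
    conv_lhs => rw [expand z, map_sum, ← ph_apply, map_sum]
    simp [ph_apply]
  rw [nX] at hz
  have fin : ∀ (s : ℝ) (S : Finset (Fin 5)), |s| = 1 → s * (F z).1 a = 1 →
      (∀ i, s * (F (e i)).1 a = 1 → i ∈ S) → ∑ i ∈ S, x0 i ≤ 7 / 16 → 9 / 8 ≤ ‖x0 - z‖ := by
    intro s S hs h1 h2 h3
    have bd : ∀ i, |s * (F (e i)).1 a| ≤ 1 := fun i => by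
      rw [abs_mul, hs, one_mul]; exact (co_le _ a).trans (n1 i)
    have le : ∀ i ∈ univ, z i * (s * (F (e i)).1 a) ≤ |z i| := fun i _ => by
      refine (le_abs_self _).trans ?_
      rw [abs_mul]; nlinarith [bd i, abs_nonneg (z i)]
    have eq := (sum_eq_sum_iff_of_le le).1 (by
      rw [hz, ← h1, ex, mul_sum]; exact sum_congr rfl fun i _ => by ring)
    have xp : ∀ i, 0 ≤ x0 i := by intro i; fin_cases i <;> simp [x0] <;> norm_num
    have xs : ∑ i, x0 i = 1 := by simp [x0, Fin.sum_univ_five]; norm_num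
    have t : ∀ i ∈ univ, |z i| + x0 i - (if i ∈ S then 2 * x0 i else 0) ≤ |(x0 - z) i| := by
      intro i _
      rw [PiLp.sub_apply]
      split_ifs with c
      · have := abs_sub_abs_le_abs_sub (z i) (x0 i)
        rw [abs_of_nonneg (xp i), abs_sub_comm] at this
        linarith
      · have zi : z i ≤ 0 := by
          by_contra hc
          push Not at hc
          have := eq i (mem_univ _)
          rw [abs_of_pos hc] at this
          exact c (h2 i (mul_left_cancel₀ hc.ne' (by rw [this, mul_one])))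
        rw [abs_of_nonpos zi, abs_of_nonneg (by linarith [xp i])]
        linarith
    have := sum_le_sum t
    rw [sum_sub_distrib, sum_add_distrib, hz, xs, sum_ite_mem, univ_inter, ← mul_sum] at this
    rw [nX]; linarith
  rcases abs_eq (zero_le_one) |>.1 ha with c | c
  · refine fin 1 (Np a) (by simp) (by simp [c]) (fun i hi => (far _ i a (n1 i) (n2 i)).1
      (by simpa using hi)) ?_
    fin_cases a <;> simp [Np, x0] <;> norm_num
  · refine fin (-1) (Nm a) (by simp) (by simp [c]) (fun i hi => (far _ i a (n1 i) (n2 i)).2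
      (by linarith)) ?_
    fin_cases a <;> simp [Nm, x0] <;> norm_num

lemma main : ENNReal.ofReal (9 / 8) ≤ Phi X Y (19 / 20) := by
  have hx : ‖x0‖ = 1 := by rw [nX]; simp [x0, Fin.sum_univ_five]; norm_num
  have hT : 1 - 19 / 20 < ‖T x0‖ := by
    refine lt_of_lt_of_le ?_ (co_le (T x0) 0)
    rw [expand x0, map_sum, ← ph_apply, map_sum]
    simp [T_e, ph_apply, x0, ys, mk, Fin.sum_univ_five]
    norm_num
  refine le_iSup_of_le x0 (le_iSup_of_le T (le_iSup_of_le ⟨hx, T_norm, hT⟩ ?_))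
  refine le_iInf fun z => le_iInf fun F => le_iInf fun ⟨h1, h2, h3⟩ => ?_
  rw [← ofReal_norm, ← ofReal_norm, le_max_iff]
  by_cases c : ‖T - F‖ < 9 / 8
  · exact Or.inl (ENNReal.ofReal_le_ofReal (key z F h1 h2 h3 c))
  · exact Or.inr (ENNReal.ofReal_le_ofReal (not_lt.1 c))

theorem result : ∃ (X Y : Type) (_ : NormedAddCommGroup X) (_ : NormedSpace ℝ X)
    (_ : CompleteSpace X) (_ : NormedAddCommGroup Y) (_ : NormedSpace ℝ Y) (_ : CompleteSpace Y)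
    (ρ ε : ℝ), 0 ≤ ρ ∧ ρ < 1 ∧ 0 < ε ∧ ε < 1 ∧ HasBeta Y ρ ∧
      ENNReal.ofReal (min (√(2 * ε) * √((1 + ρ) / (1 - ρ))) 1) < Phi X Y ε ∧
      ENNReal.ofReal (9 / 8) ≤ Phi X Y ε := by
  refine ⟨X, Y, inferInstance, inferInstance, inferInstance, inferInstance, inferInstance,
    FiniteDimensional.complete ℝ Y, 5 / 6, 19 / 20, by norm_num, by norm_num, by norm_num,
    by norm_num, beta, lt_of_lt_of_le ?_ main, main⟩
  rw [ENNReal.ofReal_lt_ofReal_iff (by norm_num)]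
  exact lt_of_le_of_lt (min_le_right _ _) (by norm_num)

end Pool.Agent.Results.MP_c24244_an.Counter
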